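import Pool.Agent.V7H62.DH.Spec

/-!
# Products of truncated zeta values: the expansion in truncated multiple zeta values
-/

set_option autoImplicit false

open Filter Finset

namespace Pool.Agent.V7H94.DH

open Pool.Agent.V7H62.DH

/-- the words obtained from `w` by the insertion of the letter `n` -/
def ins (n : ℕ) : List ℕ → List (List ℕ)
  | [] => [[n]]
  | m :: v => (n :: m :: v) :: (ins n v).map (m :: ·)

/-- the words obtained from `w` by adding `n` to one of the letters -/
def mer (n : ℕ) : List ℕ → List (List ℕ)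
  | [] => []
  | m :: v => ((n + m) :: v) :: (mer n v).map (m :: ·)

/-- the words in the expansion of the product, with their multiplicities -/
def ex : List ℕ → List (List ℕ)
  | [] => [[]]
  | n :: l => (ex l).flatMap fun w => ins n w ++ mer n w

/-- the sum of the truncated values of the words in the list -/
noncomputable def zs (L : List (List ℕ)) (N : ℕ) : ℝ := (L.map fun w => z w N).sum

lemma z_nil (N : ℕ) : z [] N = 1 := rfl

lemma z_cons (n : ℕ) (w : List ℕ) (N : ℕ) :
    z (n :: w) N = ∑ k ∈ range N, z w k / ((k : ℝ) + 1) ^ n := rfl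

lemma z_succ (n : ℕ) (w : List ℕ) (N : ℕ) :
    z (n :: w) (N + 1) = z (n :: w) N + z w N / ((N : ℝ) + 1) ^ n := by
  rw [z_cons, z_cons, sum_range_succ]

lemma z_zero (n : ℕ) (w : List ℕ) : z (n :: w) 0 = 0 := by
  rw [z_cons, Finset.range_zero, sum_empty]

lemma zs_nil (N : ℕ) : zs [] N = 0 := rfl

lemma zs_cons (w : List ℕ) (L : List (List ℕ)) (N : ℕ) : zs (w :: L) N = z w N + zs L N := by
  unfold zs
  rw [List.map_cons, List.sum_cons]

lemma zs_append (L L' : List (List ℕ)) (N : ℕ) : zs (L ++ L') N = zs L N + zs L' N := by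
  unfold zs
  rw [List.map_append, List.sum_append]

lemma zs_succ (m : ℕ) (L : List (List ℕ)) (N : ℕ) :
    zs (L.map (m :: ·)) (N + 1) = zs (L.map (m :: ·)) N + zs L N / ((N : ℝ) + 1) ^ m := by
  induction L with
  | nil => simp [zs_nil]
  | cons w L ih =>
    rw [List.map_cons, zs_cons, zs_cons, zs_cons, ih, z_succ, add_div]
    ring

lemma zs_zero (m : ℕ) (L : List (List ℕ)) : zs (L.map (m :: ·)) 0 = 0 := by
  induction L with
  | nil => rfl
  | cons w L ih => rw [List.map_cons, zs_cons, ih, z_zero, add_zero]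

/-- the product of a single truncated value and a multiple one -/
theorem prod_z (n : ℕ) (w : List ℕ) : ∀ N, z [n] N * z w N = zs (ins n w) N + zs (mer n w) N := by
  induction w with
  | nil =>
    intro N
    rw [z_nil, mul_one, ins, mer, zs_cons, zs_nil, add_zero, add_zero]
  | cons m v ih =>
    intro N
    induction N with
    | zero =>
      rw [ins, mer, zs_cons, zs_cons, zs_zero, zs_zero]
      simp only [z_zero]
      ring
    | succ N ihN =>
      rw [ins, mer, zs_cons, zs_cons] at ihN ⊢
      rw [zs_succ, zs_succ, z_succ n [], z_succ m v, z_succ n (m :: v), z_succ (n + m) v, z_nil]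
      have h := ih N
      have hN : ((N : ℝ) + 1) ≠ 0 := by positivity
      have e1 : zs (ins n v) N / ((N : ℝ) + 1) ^ m + zs (mer n v) N / ((N : ℝ) + 1) ^ m =
          z [n] N * z v N / ((N : ℝ) + 1) ^ m := by
        rw [h, add_div]
      have e2 : (z [n] N + 1 / ((N : ℝ) + 1) ^ n) * (z (m :: v) N + z v N / ((N : ℝ) + 1) ^ m) =
          z [n] N * z (m :: v) N + z (m :: v) N / ((N : ℝ) + 1) ^ n +
            z [n] N * z v N / ((N : ℝ) + 1) ^ m + z v N / ((N : ℝ) + 1) ^ (n + m) := by
        rw [pow_add]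
        field_simp
        ring
      rw [e2, ← e1, ihN]
      ring

lemma zs_flatMap (n : ℕ) (L : List (List ℕ)) (N : ℕ) :
    zs (L.flatMap fun w => ins n w ++ mer n w) N = z [n] N * zs L N := by
  induction L with
  | nil => rw [List.flatMap_nil, zs_nil, mul_zero]
  | cons w L ih =>
    rw [List.flatMap_cons, zs_append, zs_append, ih, zs_cons, mul_add, prod_z]

theorem prod_ex (l : List ℕ) (N : ℕ) : (l.map fun n => z [n] N).prod = zs (ex l) N := by
  induction l with
  | nil =>
    rw [List.map_nil, List.prod_nil, ex, zs_cons, zs_nil, z_nil, add_zero]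
  | cons n l ih => rw [List.map_cons, List.prod_cons, ih, ex, zs_flatMap]

lemma ins_perm (n : ℕ) (v : List ℕ) : ∀ w ∈ ins n v, w.Perm (n :: v) := by
  induction v with
  | nil =>
    intro w hw
    rw [ins, List.mem_singleton] at hw
    rw [hw]
  | cons m v ih =>
    intro w hw
    rw [ins, List.mem_cons] at hw
    rcases hw with rfl | hw
    · exact List.Perm.refl _
    · rw [List.mem_map] at hw
      obtain ⟨u, hu, rfl⟩ := hw
      exact ((ih u hu).cons m).trans (List.Perm.swap n m v)

lemma mer_len (n : ℕ) (v : List ℕ) : ∀ w ∈ mer n v, w.length = v.length := by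
  induction v with
  | nil =>
    intro w hw
    rw [mer] at hw
    simp at hw
  | cons m v ih =>
    intro w hw
    rw [mer, List.mem_cons] at hw
    rcases hw with rfl | hw
    · rfl
    · rw [List.mem_map] at hw
      obtain ⟨u, hu, rfl⟩ := hw
      simp only [List.length_cons, ih u hu]

lemma mer_pos (n : ℕ) (v : List ℕ) (hv : ∀ m ∈ v, 1 ≤ m) : ∀ w ∈ mer n v, ∀ m ∈ w, 1 ≤ m := by
  induction v with
  | nil =>
    intro w hw
    rw [mer] at hw
    simp at hw
  | cons k v ih =>
    have hk : 1 ≤ k := hv k (List.mem_cons_self ..)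
    have hv' : ∀ m ∈ v, 1 ≤ m := fun m hm => hv m (List.mem_cons_of_mem _ hm)
    intro w hw
    rw [mer, List.mem_cons] at hw
    rcases hw with rfl | hw
    · intro m hm
      rcases List.mem_cons.1 hm with rfl | hm
      · omega
      · exact hv' m hm
    · rw [List.mem_map] at hw
      obtain ⟨u, hu, rfl⟩ := hw
      intro m hm
      rcases List.mem_cons.1 hm with rfl | hm
      · exact hk
      · exact ih hv' u hu m hm

lemma ex_prop (l : List ℕ) (hl : ∀ n ∈ l, 1 ≤ n) : ∀ w ∈ ex l, (∀ n ∈ w, 1 ≤ n) ∧
    w.length ≤ l.length ∧ (w.length = l.length → w.Perm l) := by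
  induction l with
  | nil =>
    intro w hw
    rw [ex, List.mem_singleton] at hw
    rw [hw]
    exact ⟨fun n hn => by simp at hn, le_rfl, fun _ => List.Perm.refl _⟩
  | cons n l ih =>
    have hn : 1 ≤ n := hl n (List.mem_cons_self ..)
    have hl' : ∀ m ∈ l, 1 ≤ m := fun m hm => hl m (List.mem_cons_of_mem _ hm)
    intro w hw
    rw [ex, List.mem_flatMap] at hw
    obtain ⟨u, hu, hw⟩ := hw
    obtain ⟨h1, h2, h3⟩ := ih hl' u hu
    rcases List.mem_append.1 hw with hw | hw
    · have hp := ins_perm n u w hw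
      have hlen := hp.length_eq
      rw [List.length_cons] at hlen
      refine ⟨fun m hm => ?_, by rw [hlen, List.length_cons]; omega, fun h => ?_⟩
      · rcases List.mem_cons.1 (hp.mem_iff.1 hm) with rfl | hm
        · exact hn
        · exact h1 m hm
      · rw [hlen, List.length_cons] at h
        exact hp.trans ((h3 (by omega)).cons n)
    · have hlen := mer_len n u w hw
      refine ⟨mer_pos n u h1 w hw, by rw [hlen, List.length_cons]; omega, fun h => ?_⟩
      rw [hlen, List.length_cons] at h
      omega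

lemma cons_mem_ins (n : ℕ) (l : List ℕ) : n :: l ∈ ins n l := by
  cases l with
  | nil => rw [ins]; exact List.mem_singleton.2 rfl
  | cons m v => rw [ins]; exact List.mem_cons_self ..

lemma mem_ex (l : List ℕ) : l ∈ ex l := by
  induction l with
  | nil => rw [ex]; exact List.mem_singleton.2 rfl
  | cons n l ih =>
    rw [ex, List.mem_flatMap]
    exact ⟨l, ih, List.mem_append_left _ (cons_mem_ins n l)⟩

/-- **Expansion.** -/
theorem expansion (l : List ℕ) (hl : ∀ n ∈ l, 1 ≤ n) : ∃ (T : Finset (List ℕ)) (a : List ℕ → ℝ),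
    (∀ w ∈ T, (∀ n ∈ w, 1 ≤ n) ∧ w.length ≤ l.length ∧ (w.length = l.length → w.Perm l)) ∧
    (∀ w, 0 ≤ a w) ∧ l ∈ T ∧ 0 < a l ∧
    ∀ N, (l.map fun n => z [n] N).prod = ∑ w ∈ T, a w * z w N := by
  refine ⟨(ex l).toFinset, fun w => ((@List.count (List ℕ) instBEqOfDecidableEq w (ex l) : ℕ) : ℝ),
    fun w hw => ex_prop l hl w (List.mem_toFinset.1 hw), fun w => Nat.cast_nonneg _,
    List.mem_toFinset.2 (mem_ex l), ?_, fun N => ?_⟩
  · exact Nat.cast_pos.2 ((@List.count_pos_iff _ instBEqOfDecidableEq inferInstance _ _).2 (mem_ex l))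
  · rw [prod_ex]
    unfold zs
    rw [Finset.sum_list_map_count]
    refine sum_congr rfl fun w _ => ?_
    rw [nsmul_eq_mul]

end Pool.Agent.V7H94.DH
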